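import Pool.Agent.Y535.NS.B1
import Pool.Agent.Y8.Stm9

/-!
Counting the singular points whose paths stay in the ball, without logarithm (helper8's S_B1M).
-/

set_option autoImplicit false

open MeasureTheory Set Metric
open scoped ContDiff

namespace Pool.Agent.Y287.NS.B1M

open H459R3.NS W221.NS Pool.Agent.Y8 Pool.Agent.Y535.B1

theorem t_B1M : S_CRIT3 → S_SUMB → S_B1M := by
  rintro ⟨ε, hε, hcrit⟩ ⟨C, hC, hsum⟩
  refine ⟨C * 9 ^ 3 / ε, by positivity, fun T E D G u p h n j hn S hS hz => ?_⟩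
  have hnk : n ≤ n + j := by omega
  set r := rr (n + j) with hr
  have hrn := rr_pos n
  have hrk : 0 < r := rr_pos (n + j)
  have hrle : r ≤ rr n := rr_anti hnk
  have hr1 : r ^ 2 ≤ rr n ^ 2 := pow_le_pow_left₀ hrk.le hrle 2
  have hrk2 : 0 < r ^ 2 := by positivity
  have hn16 : rr n ≤ 1 / 16 := by
    refine (rr_anti hn).trans (le_of_eq ?_)
    unfold rr
    norm_num
  obtain ⟨hs1, -⟩ := hsum T E D G u p h n S hS
    (fun z hz' => ⟨(hz z hz').1.le, (hz z hz').2.1.le, (hz z hz').2.2.1⟩)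
  have key : ∀ z ∈ S, ε * r ≤ ∫ t in II n z.1, B2 z.2 (9 * rr n) (u t) := by
    intro z hzS
    obtain ⟨h0, hT, -, hsing, X, Y, B, C', hF, hX0, hX⟩ := hz z hzS
    set s := z.1 + r ^ 2 / 32 with hs
    have h1 := hcrit T E D G u p h r s hrk (by linarith) (by linarith) (by linarith) X Y B C' hF
      z.1 ⟨by linarith, by linarith⟩ z.2 (by
        rw [hX0]
        exact mem_ball_self (by positivity)) hsing
    refine h1.trans ?_
    have hII : II n z.1 ⊆ Ioo 0 T := by
      intro t ht
      unfold II at ht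
      exact ⟨by linarith [ht.1], by linarith [ht.2]⟩
    have hsub : Ioo (s - r ^ 2) s ⊆ II n z.1 := by
      intro t ht
      unfold II
      exact ⟨by linarith [ht.1], by linarith [ht.2]⟩
    have gi : IntegrableOn (fun t => B2 z.2 (9 * rr n) (u t)) (II n z.1) :=
      (B2_intT h z.2 _).mono_set hII
    have hG' : ∀ᵐ t ∂(volume.restrict (Ioo (s - r ^ 2) s)), t ∈ G := by
      refine aeT h ?_ ?_
      · linarith
      · linarith
    calc ∫ t in Ioo (s - r ^ 2) s, B2 (X t) (8 * r) (u t)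
        ≤ ∫ t in Ioo (s - r ^ 2) s, B2 z.2 (9 * rr n) (u t) := by
          refine integral_mono_of_nonneg (ae_of_all _ fun t => B2_nn _ _ _) (gi.mono_set hsub) ?_
          filter_upwards [hG', ae_restrict_mem measurableSet_Ioo] with t ht1 ht2
          have h2 : ‖X t - z.2‖ ≤ rr n := by
            refine hX t ?_
            rw [abs_lt]
            constructor
            · linarith [ht2.1]
            · linarith [ht2.2]
          exact B2_mono (h.spv ht1).1 (by linarith)
      _ ≤ ∫ t in II n z.1, B2 z.2 (9 * rr n) (u t) :=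
          setIntegral_mono_set gi (ae_of_all _ fun t => B2_nn _ _ _) hsub.eventuallyLE
  have h2 := Finset.sum_le_sum key
  rw [Finset.sum_const, nsmul_eq_mul] at h2
  have h3 := h2.trans (hs1 (9 * rr n) (by linarith) (by linarith))
  rw [mul_div_cancel_right₀ _ hrn.ne'] at h3
  have h4 : r = (2 ^ (n + j))⁻¹ := rr_eq (n + j)
  rw [h4] at h3
  have h5 : (0 : ℝ) < 2 ^ (n + j) := by positivity
  have h6 : (S.card : ℝ) * (ε * (2 ^ (n + j))⁻¹) * 2 ^ (n + j) = S.card * ε := by
    field_simp
  have h7 : (S.card : ℝ) * ε ≤ C * 9 ^ 3 * D * 2 ^ (n + j) := by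
    rw [← h6]
    exact mul_le_mul_of_nonneg_right h3 h5.le
  rw [← le_div_iff₀ hε] at h7
  refine h7.trans (le_of_eq ?_)
  ring

end Pool.Agent.Y287.NS.B1M
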