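import Pool.Agent.Y494.NS.CFP
import Pool.Agent.Y8.Stm8

/-!
The number of fast points in a short time interval, by the energy (helper8's S_CE).
-/

open MeasureTheory Set Metric Filter Topology
open scoped ContDiff

namespace Pool.Agent.Y287.NS.Ce

open H459R3.NS W221.NS Pool.Agent.Y8 Pool.Agent.Y494.NS.Sumb Pool.Agent.Y494.NS.Cfp

theorem trunc3 {a e : ℝ} (ha : 0 ≤ a) (he : 0 < e) : √a ≤ e + (4 * e)⁻¹ * a := by
  have h1 := Real.sq_sqrt ha
  have h3 : (4 * e)⁻¹ * a = (√a) ^ 2 / (4 * e) := by rw [h1]; ring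
  rw [h3]
  have h4 : 0 ≤ (2 * e - √a) ^ 2 / (4 * e) := by positivity
  have h5 : (2 * e - √a) ^ 2 / (4 * e) = e + (√a) ^ 2 / (4 * e) - √a := by
    field_simp
    ring
  linarith

theorem mo_lin : ∃ K : ℝ, 1 ≤ K ∧ ∀ (w : V → V), ContDiff ℝ ∞ w → ∀ (a : V) (r e : ℝ),
    0 < r → 0 < e → ‖mo r w a‖ ≤ K * (8 * e + (4 * e)⁻¹ * (r ^ 3)⁻¹ * A2 a r w) := by
  obtain ⟨K, hK, hK1, -, hK3, hK4⟩ := th_bd
  refine ⟨K, hK, fun w hw a r e hr he => ?_⟩
  have hI0 : 0 ≤ A2 a r w := integral_nonneg fun x => nsq_nn w x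
  rw [pi_norm_le_iff_of_nonneg (by positivity)]
  intro i
  have hi := ballint (nsq_sm hw).continuous a r
  rw [mo_eq hr, ← ball_int_eq (a := a) (R := r) (f := fun z => w z i * kx r a z)
    (fun z hz => by rw [kx_z hr hz, mul_zero])]
  calc ‖∫ z in ball a r, w z i * kx r a z‖
      ≤ ∫ z in ball a r, K * (r ^ 3)⁻¹ * (e + (4 * e)⁻¹ * nsq w z) := by
        refine norm_integral_le_of_norm_le
          (((ballint continuous_const a r).add (hi.const_mul _)).const_mul _) (ae_of_all _ fun z => ?_)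
        rw [norm_mul, Real.norm_eq_abs, Real.norm_eq_abs, mul_comm]
        have h2 := (kx_bd hK1 hK3 hK4 hr a z).1
        have h3 : |w z i| ≤ e + (4 * e)⁻¹ * nsq w z :=
          (abs_comp_le w z i).trans (trunc3 (nsq_nn w z) he)
        exact mul_le_mul h2 h3 (abs_nonneg _) (by positivity)
    _ = _ := by
        unfold A2
        rw [integral_const_mul, integral_add (ballint continuous_const a r) (hi.const_mul _),
          setIntegral_const, ball_vol a hr, integral_const_mul, smul_eq_mul]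
        field_simp
        ring

section

variable {T E D : ℝ} {G : Set ℝ} {u : ℝ → V → V} {p : ℝ → V → ℝ}

theorem A2_G (h : Turb 1 T E D G u p) (ρ : ℝ) (a : V) :
    IntegrableOn (fun t => A2 a ρ (u t)) G := by
  obtain ⟨K, hK, hb⟩ := ball_le ρ
  refine Integrable.mono' (g := fun _ => K * E ^ 2) (integrableOn_const h.volG)
    ((pint_cont h.openG (F := fun t x => nsq (u t) x)
      (nsq_joint h.smooth_u).continuousOn a ρ).aestronglyMeasurable h.openG.measurableSet) ?_
  filter_upwards [ae_restrict_mem h.openG.measurableSet] with t ht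
  have hu := h.spv ht
  rw [Real.norm_eq_abs, abs_of_nonneg (show 0 ≤ A2 a ρ (u t) from integral_nonneg fun x => nsq_nn _ x)]
  refine (hb _ (nsq_sm hu.1).continuous (nsq_per hu.2) (nsq_nn _) a).trans ?_
  rw [← energy_eq hu.1]
  exact mul_le_mul_of_nonneg_left (h.energy_le t ht) hK.le

/-- Packing in a short time interval, by the energy. -/
theorem packW {C : ℝ} (hC : 0 ≤ C) (hO : OverC C) (h : Turb 1 T E D G u p) {n : ℕ}
    {S : Finset (ℝ × V)} (hsep : Sep (rr n) S)
    (hS : ∀ z ∈ S, 0 ≤ z.1 - rr n ^ 2 ∧ z.1 + rr n ^ 2 ≤ T ∧ z.2 ∈ cube) {s : ℝ}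
    (hs : ∀ z ∈ S, |z.1 - s| ≤ rr n ^ 2) {ρ : ℝ} (hρ : rr n ≤ ρ) (hρ2 : ρ ≤ 2) :
    ∑ z ∈ S, ∫ t in II n z.1, A2 z.2 ρ (u t) ≤ C * (ρ / rr n) ^ 3 * (4 * rr n ^ 2 * E ^ 2) := by
  classical
  have hr := rr_pos n
  have hρ0 : 0 < ρ := hr.trans_le hρ
  set W : Set ℝ := Ioo (s - 2 * rr n ^ 2) (s + 2 * rr n ^ 2) with hW
  have hWm : MeasurableSet W := measurableSet_Ioo
  have hWv : (volume : Measure ℝ).real W = 4 * rr n ^ 2 := by
    rw [hW, Real.volume_real_Ioo_of_le (by nlinarith)]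
    ring
  have hsub : ∀ z ∈ S, II n z.1 ⊆ W := by
    intro z hz t ht
    rw [mem_II, abs_lt] at ht
    have := abs_le.1 (hs z hz)
    rw [hW, mem_Ioo]
    constructor <;> linarith [ht.1, ht.2, this.1, this.2]
  set F : ℝ → V → ℝ := fun t x => if t ∈ W then nsq (u t) x else 0 with hF
  have hball : ∀ (a : V) (t : ℝ), ∫ x in ball a ρ, F t x = W.indicator (fun t => A2 a ρ (u t)) t := by
    intro a t
    by_cases ht : t ∈ W
    · rw [indicator_of_mem ht]
      simp only [hF, if_pos ht]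
      rfl
    · rw [indicator_of_notMem ht]
      simp only [hF, if_neg ht, integral_zero]
  have h1 := pack' (F := F) (g := W.indicator fun _ => E ^ 2) hC hO h hsep hS hρ hρ2
    (fun t ht => by
      by_cases hw : t ∈ W
      · simp only [hF, if_pos hw]; exact (nsq_sm (h.spv ht).1).continuous
      · simp only [hF, if_neg hw]; exact continuous_const)
    (fun t ht => by
      by_cases hw : t ∈ W
      · simp only [hF, if_pos hw]; exact nsq_per (h.spv ht).2
      · simp only [hF, if_neg hw]; intro i x; rfl)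
    (fun t _ x => by
      by_cases hw : t ∈ W
      · simp only [hF, if_pos hw]; exact nsq_nn _ _
      · simp only [hF, if_neg hw]; exact le_rfl)
    (fun a => by
      simp only [hball]
      exact (A2_G h ρ a).indicator hWm)
    ((integrableOn_const h.volG).indicator hWm)
    (fun t ht => by
      by_cases hw : t ∈ W
      · rw [indicator_of_mem hw]
        simp only [hF, if_pos hw]
        rw [← energy_eq (h.spv ht).1]
        exact h.energy_le t ht
      · rw [indicator_of_notMem hw]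
        simp only [hF, if_neg hw, integral_zero]
        exact le_rfl)
  have h2 : ∑ z ∈ S, ∫ t in II n z.1, A2 z.2 ρ (u t) =
      ∑ z ∈ S, ∫ t in II n z.1, ∫ x in ball z.2 ρ, F t x := by
    refine Finset.sum_congr rfl fun z hz => ?_
    refine setIntegral_congr_fun (by unfold II; exact measurableSet_Ioo) fun t ht => ?_
    simp only [hball]
    rw [indicator_of_mem (hsub z hz ht)]
  rw [h2]
  refine h1.trans (mul_le_mul_of_nonneg_left ?_ (by positivity))
  rw [setIntegral_indicator hWm, setIntegral_const, smul_eq_mul]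
  refine mul_le_mul_of_nonneg_right ?_ (by positivity)
  rw [← hWv]
  exact measureReal_mono inter_subset_right (by rw [hW]; simp)

end

theorem t_CE : S_OVER → S_CE := by
  rintro ⟨C₀, hC₀, hO⟩ δ c κ₀ hδ hc
  obtain ⟨K, hK, hmo⟩ := mo_lin
  have hK0 : 0 < K := by linarith
  set C1 : ℝ := 8 * C₀ / (δ * 2 ^ κ₀) with hC1
  set C2 : ℝ := 64 * K ^ 2 * C₀ / c ^ 2 with hC2
  refine ⟨C1 + C2, by positivity, fun T E D G u p h n i S hsep hS hpair hcase => ?_⟩
  have hr := rr_pos n
  have hr1 := rr_le n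
  have hrn : (2 : ℝ) ^ n = (rr n)⁻¹ := by
    unfold rr
    rw [one_div, inv_pow, inv_inv]
  have h16 : (16 : ℝ) ^ i = 4 ^ i * 4 ^ i := by
    rw [← mul_pow]; norm_num
  rw [hrn]
  have hP : 0 ≤ E ^ 2 * (16 ^ i)⁻¹ * (rr n)⁻¹ := by positivity
  rcases S.eq_empty_or_nonempty with hemp | ⟨z₀, hz₀⟩
  · rw [hemp, Finset.card_empty, Nat.cast_zero]
    positivity
  have hpk : ∀ ρ : ℝ, rr n ≤ ρ → ρ ≤ 2 →
      ∑ z ∈ S, ∫ t in II n z.1, A2 z.2 ρ (u t) ≤ C₀ * (ρ / rr n) ^ 3 * (4 * rr n ^ 2 * E ^ 2) :=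
    fun ρ hρ hρ2 => packW hC₀.le hO h hsep hS (fun z hz => hpair z hz z₀ hz₀) hρ hρ2
  rcases hcase with hF | hF
  · -- much energy far away
    have goal : (S.card : ℝ) ≤ C1 * (E ^ 2 * (16 ^ i)⁻¹ * (rr n)⁻¹) := by
      set M : ℕ := 2 * i + κ₀ with hM
      set A := (Finset.range n).filter (fun k => M ≤ k) with hA
      have hρ : ∀ k ∈ A, rr n ≤ 2 ^ k * rr n ∧ 2 ^ k * rr n ≤ 2 := by
        intro k hk
        have hk' : k < n := Finset.mem_range.1 (Finset.mem_filter.1 hk).1
        constructor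
        · have : (1 : ℝ) ≤ 2 ^ k := one_le_pow₀ (by norm_num)
          nlinarith
        · have : (2 : ℝ) ^ k * rr n ≤ 1 := by
            unfold rr
            rw [one_div, inv_pow, ← div_eq_mul_inv, div_le_one (by positivity)]
            exact pow_le_pow_right₀ (by norm_num) hk'.le
          linarith
      have e0 : ∀ z ∈ S, ∫ t in II n z.1, NF n M (u t) z.2 =
          ∑ k ∈ A, ((2 ^ k * rr n) ^ 4)⁻¹ * ∫ t in II n z.1, A2 z.2 (2 ^ k * rr n) (u t) := by
        intro z hz
        unfold NF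
        rw [integral_finsetSum]
        · exact Finset.sum_congr rfl fun k _ => integral_const_mul _ _
        · intro k _
          exact (II_int h (hS z hz).1 (hS z hz).2.1 (A2_G h _ _)).const_mul _
      have e1 : (S.card : ℝ) * (δ * (4 ^ i / rr n)) ≤
          ∑ k ∈ A, ((2 ^ k * rr n) ^ 4)⁻¹ * (C₀ * (2 ^ k * rr n / rr n) ^ 3 * (4 * rr n ^ 2 * E ^ 2)) := by
        calc (S.card : ℝ) * (δ * (4 ^ i / rr n)) = ∑ z ∈ S, δ * (4 ^ i / rr n) := by
              rw [Finset.sum_const, nsmul_eq_mul]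
          _ ≤ ∑ z ∈ S, ∑ k ∈ A, ((2 ^ k * rr n) ^ 4)⁻¹ *
                ∫ t in II n z.1, A2 z.2 (2 ^ k * rr n) (u t) :=
              Finset.sum_le_sum fun z hz => (hF z hz).trans (e0 z hz).le
          _ = ∑ k ∈ A, ((2 ^ k * rr n) ^ 4)⁻¹ *
                ∑ z ∈ S, ∫ t in II n z.1, A2 z.2 (2 ^ k * rr n) (u t) := by
              rw [Finset.sum_comm]
              exact Finset.sum_congr rfl fun k _ => (Finset.mul_sum _ _ _).symm
          _ ≤ _ := by
              refine Finset.sum_le_sum fun k hk => mul_le_mul_of_nonneg_left ?_ (by positivity)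
              exact hpk _ (hρ k hk).1 (hρ k hk).2
      have e2 : ∀ k : ℕ, (((2 : ℝ) ^ k * rr n) ^ 4)⁻¹ *
          (C₀ * (2 ^ k * rr n / rr n) ^ 3 * (4 * rr n ^ 2 * E ^ 2)) =
            4 * C₀ * E ^ 2 * (rr n)⁻¹ * (2 ^ k * rr n)⁻¹ := by
        intro k
        have : (0 : ℝ) < 2 ^ k := by positivity
        field_simp
      simp_rw [e2] at e1
      rw [← Finset.mul_sum] at e1
      have e3 := e1.trans (mul_le_mul_of_nonneg_left (gsum n M (rr n) hr)
        (by positivity : 0 ≤ 4 * C₀ * E ^ 2 * (rr n)⁻¹))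
      have e4 : 4 * C₀ * E ^ 2 * (rr n)⁻¹ * (2 * (2 ^ M * rr n)⁻¹) =
          C1 * (E ^ 2 * (16 ^ i)⁻¹ * (rr n)⁻¹) * (δ * (4 ^ i / rr n)) := by
        rw [hC1, hM, h16, pow_add, pow_mul]
        norm_num
        field_simp
        ring
      rw [e4] at e3
      exact le_of_mul_le_mul_right e3 (by positivity)
    calc (S.card : ℝ) ≤ C1 * (E ^ 2 * (16 ^ i)⁻¹ * (rr n)⁻¹) := goal
      _ ≤ (C1 + C2) * (E ^ 2 * (16 ^ i)⁻¹ * (rr n)⁻¹) := by
          refine mul_le_mul_of_nonneg_right ?_ hP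
          have : 0 < C2 := by positivity
          linarith
      _ = _ := by ring
  · -- fast mean velocity
    have goal : (S.card : ℝ) ≤ C2 * (E ^ 2 * (16 ^ i)⁻¹ * (rr n)⁻¹) := by
      set e : ℝ := c * 4 ^ i / (32 * K * rr n) with he
      have he0 : 0 < e := by positivity
      have e1 : ∀ z ∈ S, ∫ t in II n z.1, ‖mo (rr n) (u t) z.2‖ ≤ c * (rr n ^ 2 * (4 ^ i / rr n)) / 2 +
          K * ((4 * e)⁻¹ * (rr n ^ 3)⁻¹) * ∫ t in II n z.1, A2 z.2 (rr n) (u t) := by
        intro z hz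
        have hzi : IntegrableOn (fun t => A2 z.2 (rr n) (u t)) (II n z.1) :=
          II_int h (hS z hz).1 (hS z hz).2.1 (A2_G h _ _)
        have hci : IntegrableOn (fun _ : ℝ => K * (8 * e)) (II n z.1) :=
          integrableOn_const (by unfold II; simp)
        have b1 : ∫ t in II n z.1, ‖mo (rr n) (u t) z.2‖ ≤ ∫ t in II n z.1, (K * (8 * e) +
            K * ((4 * e)⁻¹ * (rr n ^ 3)⁻¹) * A2 z.2 (rr n) (u t)) := by
          refine integral_mono_of_nonneg (ae_of_all _ fun t => norm_nonneg _)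
            (hci.add (hzi.const_mul _)) ?_
          filter_upwards [II_mem h (hS z hz).1 (hS z hz).2.1] with t ht
          refine (hmo (u t) (h.spv ht).1 z.2 (rr n) e hr he0).trans (le_of_eq ?_)
          ring
        refine b1.trans ?_
        rw [integral_add hci (hzi.const_mul _), setIntegral_const, II_vol, smul_eq_mul,
          integral_const_mul]
        refine add_le_add (le_of_eq ?_) le_rfl
        rw [he]
        field_simp
        ring
      have e2 : (S.card : ℝ) * (c * (rr n ^ 2 * (4 ^ i / rr n)) / 2) ≤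
          K * ((4 * e)⁻¹ * (rr n ^ 3)⁻¹) * (C₀ * (4 * rr n ^ 2 * E ^ 2)) := by
        have f1 : (S.card : ℝ) * (c * (rr n ^ 2 * (4 ^ i / rr n)) / 2) ≤ ∑ z ∈ S,
            K * ((4 * e)⁻¹ * (rr n ^ 3)⁻¹) * ∫ t in II n z.1, A2 z.2 (rr n) (u t) := by
          rw [← nsmul_eq_mul, ← Finset.sum_const]
          refine Finset.sum_le_sum fun z hz => ?_
          have := e1 z hz
          have := hF z hz
          linarith
        refine f1.trans ?_
        rw [← Finset.mul_sum]
        refine mul_le_mul_of_nonneg_left ?_ (by positivity)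
        have g1 := hpk (rr n) le_rfl (by linarith)
        rwa [div_self hr.ne', one_pow, mul_one] at g1
      have e3 : K * ((4 * e)⁻¹ * (rr n ^ 3)⁻¹) * (C₀ * (4 * rr n ^ 2 * E ^ 2)) ≤
          C2 * (E ^ 2 * (16 ^ i)⁻¹ * (rr n)⁻¹) * (c * (rr n ^ 2 * (4 ^ i / rr n)) / 2) := by
        rw [he, hC2, h16]
        apply le_of_eq
        field_simp
        ring
      exact le_of_mul_le_mul_right (e2.trans e3) (by positivity)
    calc (S.card : ℝ) ≤ C2 * (E ^ 2 * (16 ^ i)⁻¹ * (rr n)⁻¹) := goal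
      _ ≤ (C1 + C2) * (E ^ 2 * (16 ^ i)⁻¹ * (rr n)⁻¹) := by
          refine mul_le_mul_of_nonneg_right ?_ hP
          have : 0 < C1 := by positivity
          linarith
      _ = _ := by ring

end Pool.Agent.Y287.NS.Ce
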